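import Mathlib

/-!
Chromatic numbers of Cayley graphs of irreducible generating sets are unbounded.

We prove: for every natural number m there are a finite group G and an irreducible generating
set H of G such that the Cayley graph X(G,H), whose edges are the pairs {g, h g} with h in H,
has chromatic number larger than m.  Every irreducible generating set is quasi-irreducible, and
this is part of the statement too.

Idea of the induction step.  Given a finite group W and an independent set T (no element lies in
the subgroup generated by the others) whose Cayley graph is not t-colourable, take a Hales-Jewett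
exponent I for the alphabet W and t+1 colours and let B = W^(Option I).  The group
Perm(B) x (Z/2)^(index set) contains B through left translations.  For every set S of
coordinates and i0 in S there is an explicit permutation of B which conjugates the diagonal
embedding of W in the coordinates of S to the embedding of W in the extra coordinate `none`, and
which preserves M^(Option I) for every subgroup M of W.  Adding all these permutations
(made independent by the Z/2 coordinates) as generators keeps the generating set irreducible.
In a colouring with t+1 colours some Hales-Jewett line is monochromatic, and it is matched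
by one of the new generators with a coset of W, on which only t colours remain.
-/

namespace Pool.Agent.Results.MP_696765_co.UnboundedIrreducible

/-- The Cayley graph `X(G,H)` of the problem: vertex set `G`, and `a`, `b` are adjacent when they
are distinct and one of them is `h` times the other one for some `h ∈ H` (edges `{g, hg}`). -/
def cayleyGraph {G : Type} [Group G] (H : Set G) : SimpleGraph G :=
  SimpleGraph.fromRel (fun a b => ∃ h ∈ H, b = h * a)

/-- `H` is an irreducible generating set of `G`: it generates `G`, and no `H \ {h}` with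
`h ∈ H` generates `G`. -/
def IsIrreducibleGeneratingSet {G : Type} [Group G] (H : Set G) : Prop :=
  Subgroup.closure H = ⊤ ∧ ∀ h ∈ H, Subgroup.closure (H \ {h}) ≠ ⊤

/-- `H` is a quasi-irreducible generating set of `G`: it generates `G` and it has a well-ordering
`r` such that no element of `H` lies in the subgroup generated by the elements preceding it. -/
def IsQuasiIrreducibleGeneratingSet {G : Type} [Group G] (H : Set G) : Prop :=
  Subgroup.closure H = ⊤ ∧ ∃ r : H → H → Prop, IsWellOrder H r ∧
    ∀ h : H, (h : G) ∉ Subgroup.closure {x : G | ∃ y : H, r y h ∧ (y : G) = x}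

/-- Auxiliary: independence of a subset of a group. -/
def Indep {W : Type} [Group W] (T : Set W) : Prop :=
  ∀ h ∈ T, h ∉ Subgroup.closure (T \ {h})

section Step

variable {W : Type} [Group W] {I : Type} [DecidableEq I]

open Classical in
/-- The basic map on `W^(Option I)`. -/
noncomputable def tau (p : Set I × I) (b : Option I → W) : Option I → W := fun j =>
  match j with
  | none => b (some p.2)
  | some i => if i = p.2 then b none else if i ∈ p.1 then (b (some p.2))⁻¹ * b (some i)
      else b (some i)

open Classical in
/-- The inverse of `tau`. -/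
noncomputable def tauInv (p : Set I × I) (b : Option I → W) : Option I → W := fun j =>
  match j with
  | none => b (some p.2)
  | some i => if i = p.2 then b none else if i ∈ p.1 then b none * b (some i)
      else b (some i)

/-- `tau` as a permutation. -/
noncomputable def tauPerm (p : Set I × I) : Equiv.Perm (Option I → W) where
  toFun := tau p
  invFun := tauInv p
  left_inv := by
    intro b
    funext j
    rcases j with _ | i
    · simp [tau, tauInv]
    · by_cases h1 : i = p.2
      · subst h1; simp [tau, tauInv]
      · by_cases h2 : i ∈ p.1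
        · simp [tau, tauInv, h1, h2]
        · simp [tau, tauInv, h1, h2]
  right_inv := by
    intro b
    funext j
    rcases j with _ | i
    · simp [tau, tauInv]
    · by_cases h1 : i = p.2
      · subst h1; simp [tau, tauInv]
      · by_cases h2 : i ∈ p.1
        · simp [tau, tauInv, h1, h2]
        · simp [tau, tauInv, h1, h2]

/-- The new ambient group. -/
abbrev NewGroup (W I : Type) : Type :=
  Equiv.Perm (Option I → W) × (Set I × I → Multiplicative (ZMod 2))

/-- Left translations. -/
def lam : (Option I → W) →* NewGroup W I :=
  (MonoidHom.inl _ _).comp (MulAction.toPermHom (Option I → W) (Option I → W))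

/-- The embedding in the coordinate `none`. -/
def base : W →* (Option I → W) := MonoidHom.mulSingle (fun _ : Option I => W) none

open Classical in
/-- The new generators. -/
noncomputable def sig (p : Set I × I) : NewGroup W I :=
  (tauPerm p, Pi.mulSingle p (Multiplicative.ofAdd 1))

/-- The new generating set. -/
def newGen (I : Type) [DecidableEq I] (T : Set W) : Set (NewGroup W I) :=
  {x | ∃ h ∈ T, x = lam (base h)} ∪ {x | ∃ p : Set I × I, x = sig p}

omit [DecidableEq I] in
lemma lam_fst_apply (b c : Option I → W) : (lam b).1 c = b * c := rfl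

omit [DecidableEq I] in
lemma lam_snd (b : Option I → W) : (lam b).2 = 1 := rfl

lemma base_none (g : W) : (base g : Option I → W) none = g := by
  simp [base]

lemma base_some (g : W) (i : I) : (base g : Option I → W) (some i) = 1 := by
  simp [base]

lemma lam_base_injective : Function.Injective (fun g : W => (lam (base g) : NewGroup W I)) := by
  intro g h hgh
  have h1 : (lam (base g) : NewGroup W I).1 1 none = (lam (base h) : NewGroup W I).1 1 none := by
    have : (lam (base g) : NewGroup W I) = lam (base h) := hgh
    rw [this]
  rw [lam_fst_apply, lam_fst_apply] at h1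
  simpa [base_none] using h1

lemma ofAdd_one_ne : (Multiplicative.ofAdd (1 : ZMod 2)) ≠ 1 := by
  decide

lemma sig_snd_self (p : Set I × I) : (sig p : NewGroup W I).2 p = Multiplicative.ofAdd 1 := by
  simp [sig]

lemma sig_snd_ne (p q : Set I × I) (h : p ≠ q) : (sig q : NewGroup W I).2 p = 1 := by
  simp [sig, Pi.mulSingle_eq_of_ne h]

lemma sig_ne_one (p : Set I × I) : (sig p : NewGroup W I) ≠ 1 := by
  intro h
  have h1 : (sig p : NewGroup W I).2 p = (1 : NewGroup W I).2 p := by rw [h]
  rw [sig_snd_self] at h1
  exact ofAdd_one_ne h1

/-- The subgroup of elements with trivial `p`-th sign. -/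
def signKer (W : Type) [Group W] (p : Set I × I) : Subgroup (NewGroup W I) where
  carrier := {x | x.2 p = 1}
  mul_mem' := by
    intro a b ha hb
    simp only [Set.mem_ofPred_eq] at ha hb ⊢
    simp [ha, hb]
  one_mem' := by simp
  inv_mem' := by
    intro a ha
    simp only [Set.mem_ofPred_eq] at ha ⊢
    simp [ha]

/-- The subgroup of elements preserving `M^(Option I)`. -/
def stab (I : Type) (M : Subgroup W) : Subgroup (NewGroup W I) where
  carrier := {x | ∀ b : Option I → W, (∀ j, x.1 b j ∈ M) ↔ (∀ j, b j ∈ M)}
  mul_mem' := by
    intro a b ha hb c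
    simp only [Set.mem_ofPred_eq] at ha hb
    rw [Prod.fst_mul, Equiv.Perm.mul_apply, ha, hb]
  one_mem' := by
    intro b
    simp
  inv_mem' := by
    intro a ha b
    simp only [Set.mem_ofPred_eq] at ha
    rw [← ha ((a⁻¹).1 b)]
    simp

lemma sig_mem_stab (M : Subgroup W) (p : Set I × I) : (sig p : NewGroup W I) ∈ stab I M := by
  intro b
  change (∀ j, tau p b j ∈ M) ↔ _
  constructor
  · intro h
    have h0 : b (some p.2) ∈ M := by simpa [tau] using h none
    intro j
    rcases j with _ | i
    · simpa [tau] using h (some p.2)
    · by_cases h1 : i = p.2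
      · rw [h1]; exact h0
      · by_cases h2 : i ∈ p.1
        · have h3 := h (some i)
          simp only [tau, h1, h2, if_true, if_false] at h3
          have h4 := M.mul_mem h0 h3
          simpa using h4
        · have h3 := h (some i)
          simpa [tau, h1, h2] using h3
  · intro h j
    rcases j with _ | i
    · simpa [tau] using h (some p.2)
    · by_cases h1 : i = p.2
      · simpa [tau, h1] using h none
      · by_cases h2 : i ∈ p.1
        · simp only [tau, h1, h2, if_true, if_false]
          exact M.mul_mem (M.inv_mem (h _)) (h _)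
        · simpa [tau, h1, h2] using h (some i)

lemma lam_base_mem_stab_iff (M : Subgroup W) (g : W) :
    (lam (base g) : NewGroup W I) ∈ stab I M ↔ g ∈ M := by
  constructor
  · intro h
    have h1 := (h 1).2 (fun j => M.one_mem) none
    rw [lam_fst_apply] at h1
    simpa [base_none] using h1
  · intro h b
    have key : ∀ j, (base g : Option I → W) j ∈ M := by
      intro j
      rcases j with _ | i
      · rw [base_none]; exact h
      · rw [base_some]; exact M.one_mem
    constructor
    · intro h1 j
      have h2 := h1 j
      rw [lam_fst_apply, Pi.mul_apply] at h2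
      exact (M.mul_mem_cancel_left (key j)).1 h2
    · intro h1 j
      rw [lam_fst_apply, Pi.mul_apply]
      exact M.mul_mem (key j) (h1 j)

lemma indep_newGen {T : Set W} (hT : Indep T) : Indep (newGen I T) := by
  intro x hx hmem
  rcases hx with ⟨h, hh, rfl⟩ | ⟨p, rfl⟩
  · have hle : Subgroup.closure (newGen I T \ {lam (base h)}) ≤
        stab I (Subgroup.closure (T \ {h})) := by
      rw [Subgroup.closure_le]
      rintro y ⟨hy, hne⟩
      rcases hy with ⟨h', hh', rfl⟩ | ⟨p, rfl⟩
      · rw [SetLike.mem_coe, lam_base_mem_stab_iff]
        apply Subgroup.subset_closure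
        refine ⟨hh', ?_⟩
        intro h2
        apply hne
        rw [Set.mem_singleton_iff] at h2 ⊢
        rw [h2]
      · exact sig_mem_stab _ p
    have h1 := hle hmem
    rw [lam_base_mem_stab_iff] at h1
    exact hT h hh h1
  · have hle : Subgroup.closure (newGen I T \ {sig p}) ≤ signKer W p := by
      rw [Subgroup.closure_le]
      rintro y ⟨hy, hne⟩
      rcases hy with ⟨h', hh', rfl⟩ | ⟨q, rfl⟩
      · change (lam (base h') : NewGroup W I).2 p = 1
        rw [lam_snd]; rfl
      · change (sig q : NewGroup W I).2 p = 1
        apply sig_snd_ne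
        rintro rfl
        exact hne rfl
    have h1 : (sig p : NewGroup W I).2 p = 1 := hle hmem
    rw [sig_snd_self] at h1
    exact ofAdd_one_ne h1

/-- Extend a point of the cube by `1` in the coordinate `none`. -/
def ext1 (k : I → W) : Option I → W := fun j =>
  match j with
  | none => 1
  | some i => k i

lemma tau_line (l : Combinatorics.Line W I) (i0 : I) (hi0 : l.idxFun i0 = none) (x : W)
    (b : Option I → W) :
    tau ({i | l.idxFun i = none}, i0) (ext1 (l x) * b) =
      base x * tau ({i | l.idxFun i = none}, i0) (ext1 (l 1) * b) := by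
  funext j
  rcases j with _ | i
  · simp [tau, ext1, hi0, base_none, Combinatorics.Line.coe_apply]
  · by_cases h1 : i = i0
    · subst h1
      simp [tau, ext1, base_some]
    · cases h2 : l.idxFun i with
      | none => simp [tau, ext1, h1, h2, hi0, base_some, mul_assoc]
      | some c => simp [tau, ext1, h1, h2, base_some]

lemma sig_line (l : Combinatorics.Line W I) (i0 : I) (hi0 : l.idxFun i0 = none) (x : W) :
    (sig ({i | l.idxFun i = none}, i0) : NewGroup W I) * lam (ext1 (l x)) =
      lam (base x) * (sig ({i | l.idxFun i = none}, i0) * lam (ext1 (l 1))) := by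
  refine Prod.ext ?_ ?_
  · apply Equiv.ext
    intro b
    exact tau_line l i0 hi0 x b
  · simp [lam_snd]

end Step

lemma cayleyGraph_adj_mul {G : Type} [Group G] {H : Set G} {h g : G} (hh : h ∈ H) (h1 : h ≠ 1) :
    (cayleyGraph H).Adj g (h * g) := by
  rw [cayleyGraph, SimpleGraph.fromRel_adj]
  refine ⟨?_, Or.inl ⟨h, hh, rfl⟩⟩
  intro h2
  apply h1
  exact mul_eq_right.1 h2.symm

/-- The induction step. -/
lemma step (t : ℕ) (W : Type) [Group W] [Finite W] (T : Set W) (hT : Indep T)
    (hc : ¬ (cayleyGraph T).Colorable t) :
    ∃ (W' : Type) (_ : Group W') (_ : Finite W') (T' : Set W'), Indep T' ∧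
      ¬ (cayleyGraph T').Colorable (t + 1) := by
  classical
  obtain ⟨I, _, hI⟩ := Combinatorics.Line.exists_mono_in_high_dimension W (Fin (t + 1))
  refine ⟨NewGroup W I, inferInstance, inferInstance, newGen I T, indep_newGen hT, ?_⟩
  rintro ⟨κ⟩
  apply hc
  obtain ⟨l, c0, hl⟩ := hI (fun k => κ (lam (ext1 k)))
  obtain ⟨i0, hi0⟩ := l.proper
  set p : Set I × I := ({i | l.idxFun i = none}, i0) with hp
  set g0 : NewGroup W I := sig p * lam (ext1 (l 1)) with hg0
  have havoid : ∀ x : W, κ (lam (base x) * g0) ≠ c0 := by
    intro x
    have h1 : lam (base x) * g0 = sig p * lam (ext1 (l x)) := (sig_line l i0 hi0 x).symm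
    rw [h1, ← hl x]
    exact (κ.valid (cayleyGraph_adj_mul (Or.inr ⟨p, rfl⟩) (sig_ne_one p))).symm
  have hone : ∀ h ∈ T, h ≠ 1 := by
    intro h hh h1
    apply hT h hh
    rw [h1]
    exact Subgroup.one_mem _
  let C : (cayleyGraph T).Coloring {c : Fin (t + 1) // c ≠ c0} :=
    SimpleGraph.Coloring.mk (fun x => ⟨κ (lam (base x) * g0), havoid x⟩) (by
      have key : ∀ (h x : W), h ∈ T → κ (lam (base x) * g0) ≠ κ (lam (base (h * x)) * g0) := by
        intro h x hh
        have e1 : (lam (base (h * x)) : NewGroup W I) * g0 =
            lam (base h) * (lam (base x) * g0) := by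
          rw [map_mul base, map_mul lam, mul_assoc]
        rw [e1]
        apply κ.valid
        apply cayleyGraph_adj_mul
        · exact Or.inl ⟨h, hh, rfl⟩
        · intro h2
          apply hone h hh
          apply lam_base_injective (I := I)
          simp only [h2, map_one]
      intro v w hvw heq
      rw [Subtype.mk.injEq] at heq
      rw [cayleyGraph, SimpleGraph.fromRel_adj] at hvw
      obtain ⟨_, ⟨h, hh, rfl⟩ | ⟨h, hh, rfl⟩⟩ := hvw
      · exact key h v hh heq
      · exact key h w hh heq.symm)
  have hcard : Fintype.card {c : Fin (t + 1) // c ≠ c0} = t := by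
    simp
  have := C.colorable
  rwa [hcard] at this

lemma exists_indep (t : ℕ) : ∃ (W : Type) (_ : Group W) (_ : Finite W) (T : Set W), Indep T ∧
      ¬ (cayleyGraph T).Colorable t := by
  induction t with
  | zero =>
    refine ⟨Unit, inferInstance, inferInstance, ∅, ?_, ?_⟩
    · intro h hh
      exact absurd hh (Set.notMem_empty h)
    · rw [SimpleGraph.colorable_zero_iff]
      intro h
      exact h.elim ()
  | succ t ih =>
    obtain ⟨W, _, _, T, hT, hc⟩ := ih
    exact step t W T hT hc

lemma exists_irreducible (m : ℕ) : ∃ (G : Type) (_ : Group G) (_ : Finite G) (H : Set G),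
    IsIrreducibleGeneratingSet H ∧ (m : ℕ∞) < (cayleyGraph H).chromaticNumber := by
  obtain ⟨W, _, _, T, hT, hc⟩ := exists_indep m
  refine ⟨Subgroup.closure T, inferInstance, inferInstance,
    ((↑) : Subgroup.closure T → W) ⁻¹' T, ⟨?_, ?_⟩, ?_⟩
  · exact Subgroup.closure_closure_coe_preimage
  · intro h hh htop
    apply hT h hh
    have h1 : h ∈ Subgroup.closure ((((↑) : Subgroup.closure T → W) ⁻¹' T) \ {h}) := by
      rw [htop]; exact Subgroup.mem_top _
    have h2 : (h : W) ∈ (Subgroup.closure
        ((((↑) : Subgroup.closure T → W) ⁻¹' T) \ {h})).map (Subgroup.closure T).subtype :=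
      ⟨h, h1, rfl⟩
    rw [MonoidHom.map_closure] at h2
    refine Subgroup.closure_mono ?_ h2
    rintro _ ⟨y, ⟨hy1, hy2⟩, rfl⟩
    refine ⟨hy1, ?_⟩
    intro h3
    apply hy2
    rw [Set.mem_singleton_iff] at h3 ⊢
    exact Subtype.ext h3
  · rw [← not_le, SimpleGraph.chromaticNumber_le_iff_colorable]
    rintro ⟨κ⟩
    apply hc
    classical
    let K := Subgroup.closure T
    let rep : W → W := fun w => (Quotient.mk (QuotientGroup.rightRel K) w).out
    have hrep : ∀ w, w * (rep w)⁻¹ ∈ K := by
      intro w
      have h1 : (QuotientGroup.rightRel K) (rep w) w := Quotient.exact (Quotient.out_eq _)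
      exact QuotientGroup.rightRel_apply.1 h1
    have hrep2 : ∀ h ∈ T, ∀ w, rep (h * w) = rep w := by
      intro h hh w
      have h1 : Quotient.mk (QuotientGroup.rightRel K) (h * w) =
          Quotient.mk (QuotientGroup.rightRel K) w := by
        apply Quotient.sound
        apply QuotientGroup.rightRel_apply.2
        have h2 : w * (h * w)⁻¹ = h⁻¹ := by group
        rw [h2]
        exact K.inv_mem (Subgroup.subset_closure hh)
      change (Quotient.mk (QuotientGroup.rightRel K) (h * w)).out =
        (Quotient.mk (QuotientGroup.rightRel K) w).out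
      rw [h1]
    have hone : ∀ h ∈ T, h ≠ 1 := by
      intro h hh h1
      apply hT h hh
      rw [h1]
      exact Subgroup.one_mem _
    refine ⟨SimpleGraph.Coloring.mk (fun w => κ ⟨w * (rep w)⁻¹, hrep w⟩) ?_⟩
    have key : ∀ (h x : W), h ∈ T →
        κ ⟨x * (rep x)⁻¹, hrep x⟩ ≠ κ ⟨h * x * (rep (h * x))⁻¹, hrep (h * x)⟩ := by
      intro h x hh
      have h1 : (⟨h * x * (rep (h * x))⁻¹, hrep (h * x)⟩ : K) =
          ⟨h, Subgroup.subset_closure hh⟩ * ⟨x * (rep x)⁻¹, hrep x⟩ := by
        apply Subtype.ext
        simp only [Subgroup.coe_mul]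
        rw [hrep2 h hh x, mul_assoc]
      rw [h1]
      apply κ.valid
      apply cayleyGraph_adj_mul
      · exact hh
      · intro h2
        apply hone h hh
        exact congrArg Subtype.val h2
    intro v w hvw heq
    rw [cayleyGraph, SimpleGraph.fromRel_adj] at hvw
    obtain ⟨_, ⟨h, hh, rfl⟩ | ⟨h, hh, rfl⟩⟩ := hvw
    · exact key h v hh heq
    · exact key h w hh heq.symm

lemma one_notMem {G : Type} [Group G] {H : Set G} (hH : IsIrreducibleGeneratingSet H) :
    (1 : G) ∉ H := by
  intro h1
  apply hH.2 1 h1
  rw [eq_top_iff, ← hH.1, Subgroup.closure_le]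
  intro x hx
  by_cases h2 : x = 1
  · rw [h2]; exact Subgroup.one_mem _
  · exact Subgroup.subset_closure ⟨hx, h2⟩

lemma quasi_of_irreducible {G : Type} [Group G] {H : Set G} (hH : IsIrreducibleGeneratingSet H) :
    IsQuasiIrreducibleGeneratingSet H := by
  refine ⟨hH.1, WellOrderingRel, inferInstance, ?_⟩
  intro h hmem
  have h1 : (h : G) ∈ Subgroup.closure (H \ {(h : G)}) := by
    refine Subgroup.closure_mono ?_ hmem
    rintro _ ⟨y, hy, rfl⟩
    refine ⟨y.2, ?_⟩
    intro h2
    have h3 : y = h := Subtype.ext h2
    rw [h3] at hy
    exact (irrefl_of (WellOrderingRel (α := H)) h) hy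
  apply hH.2 h h.2
  rw [eq_top_iff, ← hH.1, Subgroup.closure_le]
  intro x hx
  by_cases h2 : x = h
  · rw [h2]; exact h1
  · exact Subgroup.subset_closure ⟨hx, h2⟩

/-- For every natural number `m` there are a finite group `G` and a subset `H` of `G`, not
containing `1`, which is an irreducible (hence also quasi-irreducible) generating set of `G`, such
that the Cayley graph `X(G,H)` has chromatic number larger than `m`. -/
theorem result : ∀ m : ℕ, ∃ (G : Type) (_ : Group G) (_ : Finite G) (H : Set G),
    (1 : G) ∉ H ∧ IsIrreducibleGeneratingSet H ∧ IsQuasiIrreducibleGeneratingSet H ∧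
      (m : ℕ∞) < (cayleyGraph H).chromaticNumber := by
  intro m
  obtain ⟨G, i1, i2, H, hH, hm⟩ := exists_irreducible m
  exact ⟨G, i1, i2, H, one_notMem hH, hH, quasi_of_irreducible hH, hm⟩

end Pool.Agent.Results.MP_696765_co.UnboundedIrreducible
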